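import Pool.Agent.W795.DD.Stm2

/-!
Project DD: time derivative of sums of Fourier series.
-/

set_option autoImplicit false

open MeasureTheory Set Filter Topology

namespace Pool.Agent.W239.DDSyn2

open H459R3.NS (V K3 ee norm_ee)
open Pool.Agent.W795.DD

/-- coordinates -/
def eqv : K3 ≃ ℤ × ℤ × ℤ where
  toFun k := (k 0, k 1, k 2)
  invFun p := ![p.1, p.2.1, p.2.2]
  left_inv k := by funext i; fin_cases i <;> rfl
  right_inv p := rfl

theorem summable_int : Summable fun n : ℤ => 1 / (1 + (n : ℝ) ^ 2) := by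
  have h : Summable fun n : ℤ => |(n : ℝ)| ^ (-2 : ℝ) := Real.summable_abs_int_rpow (by norm_num)
  have h2 := h.add (summable_of_finite_support (f := fun n : ℤ => if n = 0 then (1 : ℝ) else 0)
    ((Set.finite_singleton (0 : ℤ)).subset fun n hn => by
      by_contra h
      exact hn (if_neg h)))
  refine Summable.of_nonneg_of_le (fun n => by positivity) (fun n => ?_) h2
  by_cases hn : n = 0
  · subst hn; simp
  · rw [if_neg hn, add_zero]
    have hn' : (n : ℝ) ≠ 0 := by exact_mod_cast hn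
    rw [Real.rpow_neg (abs_nonneg _), ← one_div, show (2 : ℝ) = ((2 : ℕ) : ℝ) by norm_num,
      Real.rpow_natCast, sq_abs]
    apply one_div_le_one_div_of_le (by positivity)
    linarith

/-- a summable weight -/
noncomputable def wt (k : K3) : ℝ :=
  (1 / (1 + (k 0 : ℝ) ^ 2)) * ((1 / (1 + (k 1 : ℝ) ^ 2)) * (1 / (1 + (k 2 : ℝ) ^ 2)))

theorem summable_wt : Summable wt := by
  have h1 := summable_int.mul_of_nonneg summable_int (fun n => by positivity)
    (fun n => by positivity)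
  have h2 := summable_int.mul_of_nonneg h1 (fun n => by positivity)
    (fun p => by positivity)
  have h3 := (eqv.summable_iff (f := fun p : ℤ × ℤ × ℤ =>
    (1 / (1 + (p.1 : ℝ) ^ 2)) * ((1 / (1 + (p.2.1 : ℝ) ^ 2)) * (1 / (1 + (p.2.2 : ℝ) ^ 2))))).2 h2
  exact h3

theorem le_wt (k : K3) (y C : ℝ) (hy : 0 ≤ y) (h : (1 + Pool.Agent.W785.DF.sq k) ^ 3 * y ≤ C) :
    y ≤ C * wt k := by
  have hsq : Pool.Agent.W785.DF.sq k = (k 0 : ℝ) ^ 2 + (k 1 : ℝ) ^ 2 + (k 2 : ℝ) ^ 2 := by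
    unfold Pool.Agent.W785.DF.sq
    rw [Fin.sum_univ_three]
  have h0 : 0 ≤ (k 0 : ℝ) ^ 2 := sq_nonneg _
  have h1 : 0 ≤ (k 1 : ℝ) ^ 2 := sq_nonneg _
  have h2 : 0 ≤ (k 2 : ℝ) ^ 2 := sq_nonneg _
  have hprod : (1 + (k 0 : ℝ) ^ 2) * ((1 + (k 1 : ℝ) ^ 2) * (1 + (k 2 : ℝ) ^ 2)) ≤
      (1 + Pool.Agent.W785.DF.sq k) ^ 3 := by
    rw [hsq]
    generalize (k 0 : ℝ) ^ 2 = a at *
    generalize (k 1 : ℝ) ^ 2 = b at *
    generalize (k 2 : ℝ) ^ 2 = d at *
    calc (1 + a) * ((1 + b) * (1 + d)) ≤ (1 + (a + b + d)) * ((1 + (a + b + d)) *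
          (1 + (a + b + d))) := by gcongr <;> linarith
      _ = (1 + (a + b + d)) ^ 3 := by ring
  have hP : (0 : ℝ) < (1 + (k 0 : ℝ) ^ 2) * ((1 + (k 1 : ℝ) ^ 2) * (1 + (k 2 : ℝ) ^ 2)) := by
    positivity
  have e : C * wt k = C / ((1 + (k 0 : ℝ) ^ 2) * ((1 + (k 1 : ℝ) ^ 2) * (1 + (k 2 : ℝ) ^ 2))) := by
    unfold wt
    field_simp
  rw [e, le_div_iff₀ hP, mul_comm]
  exact (mul_le_mul_of_nonneg_right hprod hy).trans h

theorem proof : S_syn2 := by
  intro c c' hc hc' hder t ht x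
  obtain ⟨C0, hC0⟩ := hc.2 3 (t + 1)
  obtain ⟨C1, hC1⟩ := hc'.2 3 (t + 1)
  have hc0 : ∀ s ∈ Icc 0 (t + 1), ∀ k, ‖c s k‖ ≤ C0 * wt k :=
    fun s hs k => le_wt k _ _ (norm_nonneg _) (hC0 s hs k)
  have hc1 : ∀ s ∈ Icc 0 (t + 1), ∀ k, ‖c' s k‖ ≤ C1 * wt k :=
    fun s hs k => le_wt k _ _ (norm_nonneg _) (hC1 s hs k)
  have hsum : ∀ s ∈ Icc 0 (t + 1), Summable fun k => c s k * ee k x := by
    intro s hs
    refine Summable.of_norm_bounded (g := fun k => C0 * wt k) (summable_wt.mul_left C0) fun k => ?_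
    rw [norm_mul, norm_ee, mul_one]
    exact hc0 s hs k
  have htI : t ∈ Icc 0 (t + 1) := ⟨ht, by linarith⟩
  have hev : ∀ᶠ s in 𝓝[Ici 0 \ {t}] t, s ∈ Icc 0 (t + 1) ∧ s ≠ t := by
    have h1 : ∀ᶠ s in 𝓝[Ici 0 \ {t}] t, s < t + 1 :=
      (eventually_lt_nhds (by linarith : t < t + 1)).filter_mono nhdsWithin_le_nhds
    filter_upwards [h1, self_mem_nhdsWithin] with s hs1 hs2
    exact ⟨⟨hs2.1, hs1.le⟩, hs2.2⟩
  rw [hasDerivWithinAt_iff_tendsto_slope]
  have key : Tendsto (fun s => ∑' k, (slope (fun s => c s k) t s) * ee k x)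
      (𝓝[Ici 0 \ {t}] t) (𝓝 (∑' k, c' t k * ee k x)) := by
    refine tendsto_tsum_of_dominated_convergence (bound := fun k => C1 * wt k)
      (summable_wt.mul_left C1) ?_ ?_
    · intro k
      have h1 := hasDerivWithinAt_iff_tendsto_slope.1 (hder t ht k)
      exact h1.mul_const _
    · filter_upwards [hev] with s hs k
      rw [norm_mul, norm_ee, mul_one, slope_def_module, norm_smul]
      have h1 : ‖c s k - c t k‖ ≤ (C1 * wt k) * ‖s - t‖ := by
        refine Convex.norm_image_sub_le_of_norm_hasDerivWithin_le (f := fun s => c s k)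
          (f' := fun s => c' s k) (s := Icc 0 (t + 1)) ?_ ?_ (convex_Icc 0 (t + 1)) htI hs.1
        · intro r hr
          exact (hder r hr.1 k).mono Icc_subset_Ici_self
        · intro r hr
          exact hc1 r hr k
      have h2 : 0 < ‖s - t‖ := norm_pos_iff.2 (sub_ne_zero.2 hs.2)
      rw [norm_inv, inv_mul_le_iff₀ h2, mul_comm ‖s - t‖]
      exact h1
  refine key.congr' ?_
  filter_upwards [hev] with s hs
  rw [slope_def_module]
  unfold FS
  rw [← (hsum s hs.1).tsum_sub (hsum t htI), ← ((hsum s hs.1).sub (hsum t htI)).tsum_const_smul]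
  refine tsum_congr fun k => ?_
  rw [slope_def_module, smul_mul_assoc, sub_mul]

end Pool.Agent.W239.DDSyn2
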